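import Pool.Agent.Y162.HW.Joint

/-!
# Frobenius on the top cohomology of the structure sheaf: degenerations to arrangements

Let `k` be a field of characteristic `0`.  We consider finitely many varieties `X_i` over `k`, of
any dimensions, each given by a system of forms `F_ij`:

* a hypersurface `F = 0` of degree `m + n + 1` in the projective space of dimension `n` (one form);
* a cyclic cover `w^e = ∏_j F_j^(a_j)` of the projective space of dimension `n`.

In characteristic `p` the Frobenius map on the top cohomology of the structure sheaf of `X_i` is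
given by blocks `x^(-w) ↦ P x^(-p w)` on the top cohomology of `O(-m-n-1)` on the projective space,
where `P = F^(p-1)` for a hypersurface and `P = ∏_j F_j ^ ⌊p (i a_j mod e) / e⌋`, `0 < i < e`, for a
cyclic cover.

Suppose that one specialisation of the coefficients in a field `κ` of characteristic `0` turns the
`F_ij` into `q_ij ∏ ℓ_iι^(μ_ijι)`, where for each `i` the `ℓ_iι` are `m_i + n_i` linear forms in
general position and the forms `q_ij` of degree `δ_ij` vanish at no vertex of this arrangement.
Then for every model over a finitely generated subring `A ⊂ k`, every nonempty open set `D(a)` of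
`Spec A` and every sufficiently large prime number `p` there is a closed point of `D(a)` of
characteristic `p` at which all the blocks whose exponents satisfy `∑_j c_j μ_ijι = p - 1` and
`∑_j c_j δ_ij = p - 1` are bijective, for all `X_i` simultaneously, hence also for their product.
-/

set_option autoImplicit false

namespace Pool.Agent.Results.MP_44c6a0_ag.DegenerationsToArrangements

open MvPolynomial Pool.Agent.Y162.HW

theorem result {k κ : Type*} [Field k] [CharZero k] [Field κ] [CharZero κ]
    -- finitely many systems of forms
    {I : Type*} [Fintype I] (n m : I → ℕ) (J : I → Type*) [∀ i, Fintype (J i)]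
    (F : ∀ i, J i → MvPolynomial (Fin (n i + 1)) k)
    -- a specialisation of the coefficients
    (O : Subring k) (φ : O →+* κ)
    (F' : ∀ i, J i → MvPolynomial (Fin (n i + 1)) O)
    (hF' : ∀ i j, map O.subtype (F' i j) = F i j)
    -- the specialised forms
    (l : ∀ i, Fin (m i + n i) → Fin (n i + 1) → κ) (hl : ∀ i, GenPos (l i))
    (μ : ∀ i, J i → Fin (m i + n i) → ℕ) (δ : ∀ i, J i → ℕ)
    (q : ∀ i, J i → MvPolynomial (Fin (n i + 1)) κ)
    (hq : ∀ i j, (q i j).IsHomogeneous (δ i j))
    (hqv : ∀ i j, NonvanishingAtVertices (l i) (q i j))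
    (hred : ∀ i j, map φ (F' i j) = q i j * ∏ ι, lin (l i ι) ^ μ i j ι)
    -- models over a finitely generated ring, a nonempty open set
    (A : Subalgebra ℤ k) (hA : A.FG) (G : ∀ i, J i → MvPolynomial (Fin (n i + 1)) A)
    (hG : ∀ i j, map (algebraMap A k) (G i j) = F i j) (a : A) (ha : a ≠ 0) :
    ∃ N : ℕ, ∀ p : ℕ, N ≤ p → p.Prime → ∃ M : Ideal A, M.IsMaximal ∧ (p : A) ∈ M ∧ a ∉ M ∧
      ∀ i, ∀ c : J i → ℕ, (∀ j, c j < p) → (∀ ι, ∑ j, c j * μ i j ι = p - 1) →
        ∑ j, c j * δ i j = p - 1 →
        (hwP (n i) (m i) p (∏ j, (map (Ideal.Quotient.mk M) (G i j)) ^ c j)).det ≠ 0 :=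
  jointMain n m J F O φ F' hF' l hl μ δ q hq hqv hred A hA G hG a ha

end Pool.Agent.Results.MP_44c6a0_ag.DegenerationsToArrangements
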